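import Mathlib

/-!
# Few polynomials vanishing at a point have another common zero

Over an algebraically closed field, fewer polynomials than variables, all vanishing at the
origin, have a common zero different from the origin (Krull's height theorem and the
Nullstellensatz).
-/

set_option autoImplicit false

namespace Pool.Agent.H6

open MvPolynomial

variable {K : Type*} [Field K] {σ : Type*}

/-- Translation automorphism of the polynomial ring. -/
noncomputable def translate (a : σ → K) : MvPolynomial σ K ≃ₐ[K] MvPolynomial σ K :=
  AlgEquiv.ofAlgHom (aeval (fun i => X i + C (a i))) (aeval (fun i => X i - C (a i)))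
    (by ext i; simp) (by ext i; simp)

lemma height_vanishing_eq (a : σ → K) :
    (vanishingIdeal K {a} : Ideal (MvPolynomial σ K)).height =
      (vanishingIdeal K {(0 : σ → K)} : Ideal (MvPolynomial σ K)).height := by
  have h : (vanishingIdeal K {(0 : σ → K)} : Ideal (MvPolynomial σ K)) =
      (vanishingIdeal K {a} : Ideal (MvPolynomial σ K)).map (translate a).toRingEquiv := by
    ext p
    rw [Ideal.mem_map_iff_of_surjective _ (translate a).toRingEquiv.surjective]
    constructor
    · intro hp
      refine ⟨(translate a).symm p, ?_, ?_⟩
      · rw [mem_vanishingIdeal_singleton_iff] at hp ⊢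
        have : aeval a ((translate a).symm p) = aeval (0 : σ → K) p := by
          have h2 : (aeval a : MvPolynomial σ K →ₐ[K] K).comp
              ((translate a).symm : MvPolynomial σ K →ₐ[K] MvPolynomial σ K) = aeval 0 := by
            ext i
            simp [translate]
          exact DFunLike.congr_fun h2 p
        rw [this]; exact hp
      · exact (translate a).apply_symm_apply p
    · rintro ⟨q, hq, rfl⟩
      rw [mem_vanishingIdeal_singleton_iff] at hq ⊢
      have h2 : (aeval (0 : σ → K) : MvPolynomial σ K →ₐ[K] K).comp
          ((translate a) : MvPolynomial σ K →ₐ[K] MvPolynomial σ K) = aeval a := by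
        ext i
        simp [translate]
      have := DFunLike.congr_fun h2 q
      rw [← hq, ← this]
      rfl
  rw [h, RingEquiv.height_map]

lemma height_vanishing_zero [IsAlgClosed K] [Finite σ] :
    (vanishingIdeal K {(0 : σ → K)} : Ideal (MvPolynomial σ K)).height = Nat.card σ := by
  apply le_antisymm
  · have := Ideal.height_le_ringKrullDim_of_isPrime
      (I := (vanishingIdeal K {(0 : σ → K)} : Ideal (MvPolynomial σ K)))
    rw [MvPolynomial.ringKrullDim_of_isNoetherianRing, ringKrullDim_eq_zero_of_field,
      zero_add] at this
    exact_mod_cast this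
  · have h : ringKrullDim (MvPolynomial σ K) ≤
        ((vanishingIdeal K {(0 : σ → K)} : Ideal (MvPolynomial σ K)).height : WithBot ℕ∞) := by
      rw [ringKrullDim_le_iff_isMaximal_height_le]
      intro I hI
      obtain ⟨x, hx⟩ := eq_vanishingIdeal_singleton_of_isMaximal K hI
      rw [hx, height_vanishing_eq]
    rw [MvPolynomial.ringKrullDim_of_isNoetherianRing, ringKrullDim_eq_zero_of_field,
      zero_add] at h
    exact_mod_cast h

/-- Fewer polynomials than variables, all vanishing at `0`, have a nonzero common zero. -/
theorem exists_ne_zero_common_zero [IsAlgClosed K] [Finite σ] {ι : Type*} [Finite ι]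
    (H : ι → MvPolynomial σ K) (h0 : ∀ j, eval (0 : σ → K) (H j) = 0)
    (hcard : Nat.card ι < Nat.card σ) :
    ∃ y : σ → K, y ≠ 0 ∧ ∀ j, eval y (H j) = 0 := by
  by_contra hcon
  push Not at hcon
  set I : Ideal (MvPolynomial σ K) := Ideal.span (Set.range H) with hI
  have hz : zeroLocus K I = {0} := by
    rw [hI, zeroLocus_span]
    ext y
    simp only [Set.mem_range, forall_exists_index, forall_apply_eq_imp_iff, Set.mem_ofPred_eq,
      Set.mem_singleton_iff]
    constructor
    · intro hy
      by_contra hne
      obtain ⟨j, hj⟩ := hcon y hne
      exact hj (hy j)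
    · rintro rfl j
      exact h0 j
  have hrad : I.radical = vanishingIdeal K {(0 : σ → K)} := by
    rw [← vanishingIdeal_zeroLocus_eq_radical (K := K), hz]
  have hmin : (vanishingIdeal K {(0 : σ → K)} : Ideal (MvPolynomial σ K)) ∈ I.minimalPrimes := by
    rw [← Ideal.radical_minimalPrimes, hrad, Ideal.minimalPrimes_eq_subsingleton_self]
    rfl
  have hle := Ideal.height_le_card_of_mem_minimalPrimes_span (Set.finite_range H) hmin
  rw [height_vanishing_zero] at hle
  have h2 : (Set.range H).ncard ≤ Nat.card ι := by
    rw [← Set.image_univ, ← Set.ncard_univ]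
    exact Set.ncard_image_le Set.finite_univ
  have h3 : Nat.card σ ≤ (Set.range H).ncard := by exact_mod_cast hle
  omega

end Pool.Agent.H6
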