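import Mathlib
import Pool.Agent.H6.CommonZero

/-!
# Lines with few boundary points through a given point

The algebraic heart: through a point of a complete intersection pair with `K + D ≤ 0` there is a
line on which the boundary polynomial has at most two zeros.
-/

set_option autoImplicit false

namespace Pool.Agent.H6

open MvPolynomial

variable {K : Type*} [Field K] {n : ℕ}

/-- The restriction of `G` to the line `x + t v`, as a polynomial in `t`. -/
noncomputable def onLine (x v : Fin n → K) (G : MvPolynomial (Fin n) K) : Polynomial K :=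
  aeval (fun j => Polynomial.C (x j) + Polynomial.X * Polynomial.C (v j)) G

lemma eval_onLine (x v : Fin n → K) (G : MvPolynomial (Fin n) K) (t : K) :
    (onLine x v G).eval t = eval (fun j => x j + t * v j) G := by
  unfold onLine
  have h : ((Polynomial.evalRingHom t).comp
      (aeval (fun j => Polynomial.C (x j) + Polynomial.X * Polynomial.C (v j)) :
        MvPolynomial (Fin n) K →ₐ[K] Polynomial K).toRingHom) =
      (eval (fun j => x j + t * v j) : MvPolynomial (Fin n) K →+* K) := by
    apply MvPolynomial.ringHom_ext
    · intro r; simp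
    · intro i
      simp
      ring
  exact DFunLike.congr_fun h G

lemma natDegree_onLine (x v : Fin n → K) (G : MvPolynomial (Fin n) K) {e : ℕ}
    (hG : G.totalDegree ≤ e) : (onLine x v G).natDegree ≤ e := by
  have := aeval_natDegree_le (m := e) (n := 1) G hG
    (fun j => Polynomial.C (x j) + Polynomial.X * Polynomial.C (v j)) (by
      intro i
      refine (Polynomial.natDegree_add_le _ _).trans ?_
      simp only [Polynomial.natDegree_C, zero_le, sup_of_le_right]
      refine (Polynomial.natDegree_mul_le).trans ?_
      simp)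
  simpa [onLine] using this

/-- The same restriction with indeterminate direction. -/
noncomputable def onLineU {τ : Type*} (ι : Fin n → τ) (x : Fin n → K)
    (G : MvPolynomial (Fin n) K) : Polynomial (MvPolynomial τ K) :=
  aeval (fun j => Polynomial.C (C (x j)) + Polynomial.X * Polynomial.C (X (ι j))) G

lemma map_onLineU {τ : Type*} (ι : Fin n → τ) (x : Fin n → K) (G : MvPolynomial (Fin n) K)
    (y : τ → K) :
    (onLineU ι x G).map (eval y) = onLine x (fun j => y (ι j)) G := by
  unfold onLine onLineU
  have h : ((Polynomial.mapRingHom (eval y)).comp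
      (aeval (fun j => Polynomial.C (C (x j)) + Polynomial.X * Polynomial.C (X (ι j))) :
        MvPolynomial (Fin n) K →ₐ[K] Polynomial (MvPolynomial τ K)).toRingHom) =
      (aeval (fun j => Polynomial.C (x j) + Polynomial.X * Polynomial.C (y (ι j))) :
        MvPolynomial (Fin n) K →ₐ[K] Polynomial K).toRingHom := by
    apply MvPolynomial.ringHom_ext
    · intro r
      simp [Polynomial.algebraMap_apply, MvPolynomial.algebraMap_eq]
    · intro i; simp
  exact DFunLike.congr_fun h G

/-- **Key statement.**  Let `x` be a zero of the polynomials `G i`, of degrees at most `e i`, and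
let `F x ≠ 0`, `F` of degree at most `d`, `2 ≤ d`, with `∑ e i + d ≤ n`, where `n` is the number of
homogeneous coordinates.  Let `ℓ` be a coordinate.  Then there are `v`, `a`, `b` with `v ≠ 0`,
`v ℓ = 0`, such that every `G i` vanishes on the line `x + t v` and
`F (x + t v) = F x * (1 - a t) ^ (d - 1) * (1 - b t)`. -/
theorem exists_line [IsAlgClosed K] {c : ℕ} (e : Fin c → ℕ) (d : ℕ) (hd : 2 ≤ d)
    (G : Fin c → MvPolynomial (Fin n) K) (F : MvPolynomial (Fin n) K)
    (hG : ∀ i, (G i).totalDegree ≤ e i) (hF : F.totalDegree ≤ d)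
    (hdeg : ∑ i, e i + d ≤ n) (x : Fin n → K) (hx : ∀ i, eval x (G i) = 0) (hFx : eval x F ≠ 0)
    (ℓ : Fin n) :
    ∃ (v : Fin n → K) (a b : K), v ≠ 0 ∧ v ℓ = 0 ∧
      (∀ i (t : K), eval (fun j => x j + t * v j) (G i) = 0) ∧
      (∀ t : K, eval (fun j => x j + t * v j) F =
        eval x F * (1 - a * t) ^ (d - 1) * (1 - b * t)) := by
  classical
  -- unknowns
  let τ := Fin n ⊕ Fin 2
  let ιv : Fin n → τ := Sum.inl
  let A : MvPolynomial τ K := X (Sum.inr 0)
  let B : MvPolynomial τ K := X (Sum.inr 1)
  let Q : Polynomial (MvPolynomial τ K) :=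
    Polynomial.C (C (eval x F)) * (1 - Polynomial.C A * Polynomial.X) ^ (d - 1) *
      (1 - Polynomial.C B * Polynomial.X)
  let H : ((Σ i : Fin c, Fin (e i)) ⊕ (Fin d ⊕ Unit)) → MvPolynomial τ K := fun s =>
    match s with
    | Sum.inl ⟨i, k⟩ => (onLineU ιv x (G i)).coeff (k + 1)
    | Sum.inr (Sum.inl k) => (onLineU ιv x F - Q).coeff (k + 1)
    | Sum.inr (Sum.inr _) => X (Sum.inl ℓ)
  have hcoefG : ∀ (i : Fin c) (k : ℕ) (y : τ → K), eval y ((onLineU ιv x (G i)).coeff k) =
      (onLine x (fun j => y (ιv j)) (G i)).coeff k := by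
    intro i k y
    rw [← map_onLineU ιv x (G i) y, Polynomial.coeff_map]
  have hcoefF : ∀ (k : ℕ) (y : τ → K), eval y ((onLineU ιv x F - Q).coeff k) =
      (onLine x (fun j => y (ιv j)) F -
        Polynomial.C (eval x F) * (1 - Polynomial.C (y (Sum.inr 0)) * Polynomial.X) ^ (d - 1) *
      (1 - Polynomial.C (y (Sum.inr 1)) * Polynomial.X)).coeff k := by
    intro k y
    rw [← map_onLineU ιv x F y, ← Polynomial.coeff_map]
    congr 1
    simp [Q, A, B, Polynomial.map_sub, Polynomial.map_mul, Polynomial.map_pow]
  have hline0 : ∀ P : MvPolynomial (Fin n) K, onLine x (fun _ => (0 : K)) P =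
      Polynomial.C (eval x P) := by
    intro P
    apply Polynomial.funext
    intro t
    rw [eval_onLine]
    simp
  have h0 : ∀ s, eval (0 : τ → K) (H s) = 0 := by
    rintro (⟨i, k⟩ | k | u)
    · show eval (0 : τ → K) ((onLineU ιv x (G i)).coeff (k + 1)) = 0
      rw [hcoefG]
      simp only [Pi.zero_apply]
      rw [hline0]
      simp
    · show eval (0 : τ → K) ((onLineU ιv x F - Q).coeff (k + 1)) = 0
      rw [hcoefF]
      simp only [Pi.zero_apply]
      rw [hline0]
      simp
    · show eval (0 : τ → K) (X (Sum.inl ℓ)) = 0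
      simp
  have hcard : Nat.card ((Σ i : Fin c, Fin (e i)) ⊕ (Fin d ⊕ Unit)) < Nat.card τ := by
    simp [τ, Nat.card_eq_fintype_card]
    omega
  obtain ⟨y, hy0, hy⟩ := exists_ne_zero_common_zero H h0 hcard
  set v : Fin n → K := fun j => y (Sum.inl j) with hv
  set a : K := y (Sum.inr 0) with ha
  set b : K := y (Sum.inr 1) with hb
  have hGline : ∀ i, onLine x v (G i) = 0 := by
    intro i
    ext k
    rw [Polynomial.coeff_zero]
    rcases Nat.eq_zero_or_pos k with rfl | hk
    · rw [Polynomial.coeff_zero_eq_eval_zero, eval_onLine]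
      simpa using hx i
    · by_cases hke : k ≤ e i
      · have := hy (Sum.inl ⟨i, ⟨k - 1, by omega⟩⟩)
        have h3 : eval y ((onLineU ιv x (G i)).coeff (k - 1 + 1)) = 0 := this
        rw [hcoefG, Nat.sub_add_cancel hk] at h3
        exact h3
      · apply Polynomial.coeff_eq_zero_of_natDegree_lt
        exact lt_of_le_of_lt (natDegree_onLine x v (G i) (hG i)) (by omega)
  have hFline : onLine x v F = Polynomial.C (eval x F) *
      (1 - Polynomial.C a * Polynomial.X) ^ (d - 1) * (1 - Polynomial.C b * Polynomial.X) := by
    rw [← sub_eq_zero]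
    ext k
    rw [Polynomial.coeff_zero]
    rcases Nat.eq_zero_or_pos k with rfl | hk
    · rw [Polynomial.coeff_zero_eq_eval_zero, Polynomial.eval_sub, eval_onLine]
      simp
    · by_cases hke : k ≤ d
      · have := hy (Sum.inr (Sum.inl ⟨k - 1, by omega⟩))
        have h3 : eval y ((onLineU ιv x F - Q).coeff (k - 1 + 1)) = 0 := this
        rw [hcoefF, Nat.sub_add_cancel hk] at h3
        exact h3
      · apply Polynomial.coeff_eq_zero_of_natDegree_lt
        refine lt_of_le_of_lt (Polynomial.natDegree_sub_le _ _) (max_lt ?_ ?_)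
        · exact lt_of_le_of_lt (natDegree_onLine x v F hF) (by omega)
        · refine lt_of_le_of_lt Polynomial.natDegree_mul_le ?_
          have h1 : ∀ z : K, (1 - Polynomial.C z * Polynomial.X : Polynomial K).natDegree ≤ 1 := by
            intro z
            refine (Polynomial.natDegree_sub_le _ _).trans ?_
            simp only [Polynomial.natDegree_one, zero_le, sup_of_le_right]
            refine (Polynomial.natDegree_C_mul_le _ _).trans ?_
            exact Polynomial.natDegree_X_le
          have h2 : (Polynomial.C (eval x F) *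
              (1 - Polynomial.C a * Polynomial.X) ^ (d - 1)).natDegree ≤ d - 1 := by
            refine (Polynomial.natDegree_C_mul_le _ _).trans ?_
            refine Polynomial.natDegree_pow_le.trans ?_
            calc (d - 1) * (1 - Polynomial.C a * Polynomial.X : Polynomial K).natDegree
                ≤ (d - 1) * 1 := Nat.mul_le_mul_left _ (h1 a)
              _ = d - 1 := by ring
          have := h1 b
          omega
  have hGeval : ∀ i (t : K), eval (fun j => x j + t * v j) (G i) = 0 := by
    intro i t
    rw [← eval_onLine, hGline]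
    simp
  have hFeval : ∀ t : K, eval (fun j => x j + t * v j) F =
      eval x F * (1 - a * t) ^ (d - 1) * (1 - b * t) := by
    intro t
    rw [← eval_onLine, hFline]
    simp
  refine ⟨v, a, b, ?_, ?_, hGeval, hFeval⟩
  · -- `v ≠ 0`
    intro hv0
    have h1 : ∀ t : K, (1 - a * t) ^ (d - 1) * (1 - b * t) = 1 := by
      intro t
      have := hFeval t
      simp only [hv0, Pi.zero_apply, mul_zero, add_zero] at this
      have h2 : eval x F * ((1 - a * t) ^ (d - 1) * (1 - b * t)) = eval x F * 1 := by
        rw [mul_one, ← mul_assoc]; exact this.symm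
      exact mul_left_cancel₀ hFx h2
    have ha0 : a = 0 := by
      by_contra hne
      have := h1 a⁻¹
      rw [mul_inv_cancel₀ hne, sub_self, zero_pow (by omega), zero_mul] at this
      exact zero_ne_one this
    have hb0 : b = 0 := by
      by_contra hne
      have := h1 b⁻¹
      rw [mul_inv_cancel₀ hne, sub_self, mul_zero] at this
      exact zero_ne_one this
    apply hy0
    funext s
    rcases s with j | j
    · exact congrFun hv0 j
    · fin_cases j
      · exact ha0
      · exact hb0
  · have := hy (Sum.inr (Sum.inr ()))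
    have h3 : eval y (X (Sum.inl ℓ)) = 0 := this
    simpa using h3

end Pool.Agent.H6
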