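import Mathlib

/-!
# Integrals of radial functions over discs in `ℂ`
-/

set_option autoImplicit false

open MeasureTheory Set
open scoped ENNReal Real

namespace Pool.Agent.H6

lemma lintegral_norm (g : ℝ → ℝ≥0∞) (hg : Measurable g) :
    ∫⁻ z : ℂ, g ‖z‖ = ∫⁻ y in Ioi (0 : ℝ), ENNReal.ofReal (2 * π * y) * g y := by
  rw [← Complex.lintegral_comp_polarCoord_symm]
  have h1 : ∀ p ∈ polarCoord.target, ENNReal.ofReal p.1 • g ‖Complex.polarCoord.symm p‖ =
      ENNReal.ofReal p.1 * g p.1 := by
    intro p hp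
    rw [Complex.norm_polarCoord_symm, smul_eq_mul, abs_of_pos]
    rw [polarCoord_target] at hp
    exact hp.1
  have hmeas : MeasurableSet polarCoord.target := by
    rw [polarCoord_target]
    exact measurableSet_Ioi.prod measurableSet_Ioo
  have h2 : ∫⁻ p in polarCoord.target, ENNReal.ofReal p.1 • g ‖Complex.polarCoord.symm p‖ =
      ∫⁻ p in polarCoord.target, ENNReal.ofReal p.1 * g p.1 :=
    setLIntegral_congr_fun hmeas h1
  rw [h2, polarCoord_target, Measure.volume_eq_prod, ← Measure.prod_restrict, lintegral_prod]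
  · apply lintegral_congr
    intro y
    simp only [lintegral_const, Measure.restrict_apply MeasurableSet.univ, univ_inter,
      Real.volume_Ioo]
    have : (π - -π) = 2 * π := by ring
    rw [this, ENNReal.ofReal_mul (p := 2 * π) (q := y) (by positivity)]
    ring
  · apply Measurable.aemeasurable
    exact (measurable_fst.ennreal_ofReal).mul (hg.comp measurable_fst)

/-- Radial integrals over a disc via an antiderivative. -/
lemma lintegral_ball_norm (ρ : ℝ) (hρ : 0 ≤ ρ) (h : ℝ → ℝ) (hc : Continuous h)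
    (h0 : ∀ y, 0 ≤ y → 0 ≤ h y) (G : ℝ → ℝ)
    (hG : ∀ y ∈ Icc (0 : ℝ) ρ, HasDerivAt G (2 * π * y * h y) y) :
    ∫⁻ z in Metric.ball (0 : ℂ) ρ, ENNReal.ofReal (h ‖z‖) = ENNReal.ofReal (G ρ - G 0) := by
  have h1 : ∫⁻ z in Metric.ball (0 : ℂ) ρ, ENNReal.ofReal (h ‖z‖) =
      ∫⁻ z : ℂ, (Iio ρ).indicator (fun y => ENNReal.ofReal (h y)) ‖z‖ := by
    rw [← lintegral_indicator measurableSet_ball]
    apply lintegral_congr
    intro z
    by_cases hz : ‖z‖ < ρ
    · rw [indicator_of_mem (by simpa using hz), indicator_of_mem (by simpa using hz)]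
    · rw [indicator_of_notMem (by simpa using hz), indicator_of_notMem (by simpa using hz)]
  rw [h1, lintegral_norm _ ((hc.measurable.ennreal_ofReal).indicator measurableSet_Iio)]
  have h2 : ∫⁻ y in Ioi (0 : ℝ), ENNReal.ofReal (2 * π * y) *
      (Iio ρ).indicator (fun y => ENNReal.ofReal (h y)) y =
      ∫⁻ y in Ioo (0 : ℝ) ρ, ENNReal.ofReal (2 * π * y * h y) := by
    rw [← lintegral_indicator measurableSet_Ioi, ← lintegral_indicator measurableSet_Ioo]
    apply lintegral_congr
    intro y
    by_cases hy : 0 < y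
    · by_cases hy2 : y < ρ
      · rw [indicator_of_mem (show y ∈ Ioi (0 : ℝ) from hy),
          indicator_of_mem (show y ∈ Iio ρ from hy2),
          indicator_of_mem (show y ∈ Ioo (0 : ℝ) ρ from ⟨hy, hy2⟩),
          ← ENNReal.ofReal_mul (by positivity)]
      · rw [indicator_of_mem (show y ∈ Ioi (0 : ℝ) from hy),
          indicator_of_notMem (show y ∉ Iio ρ from hy2),
          indicator_of_notMem (show y ∉ Ioo (0 : ℝ) ρ from fun h => hy2 h.2), mul_zero]
    · rw [indicator_of_notMem (show y ∉ Ioi (0 : ℝ) from hy),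
          indicator_of_notMem (show y ∉ Ioo (0 : ℝ) ρ from fun h => hy h.1)]
  rw [h2, Measure.restrict_congr_set Ioo_ae_eq_Ioc]
  have hcont : Continuous (fun y => 2 * π * y * h y) := by fun_prop
  have h3 : ∫ y in (0 : ℝ)..ρ, 2 * π * y * h y = G ρ - G 0 := by
    apply intervalIntegral.integral_eq_sub_of_hasDerivAt
    · intro y hy
      rw [uIcc_of_le hρ] at hy
      exact hG y hy
    · exact hcont.intervalIntegrable _ _
  rw [← h3, intervalIntegral.integral_of_le hρ, ofReal_integral_eq_lintegral_ofReal]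
  · exact (hcont.intervalIntegrable 0 ρ).1
  · rw [Filter.EventuallyLE, ae_restrict_iff' measurableSet_Ioc]
    refine Filter.Eventually.of_forall fun y hy => ?_
    have := h0 y hy.1.le
    have := hy.1.le
    simp only [Pi.zero_apply]
    positivity

end Pool.Agent.H6
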